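import Pool.Agent.Y581.WN.StmB

/-!
# Project WN: the form, the parameter and the size of the instances with keys
-/

set_option autoImplicit false

namespace Pool.Agent.Y77.WN

open Pool.Agent.NPC Pool.Agent.H622R2 Pool.Agent.H620R2.Gauge Pool.Agent.TH678.GC
  Pool.Agent.H591R3.PHG Pool.Agent.TH678.RS Pool.Agent.H622R2.Exp Pool.Agent.Y626.WG
  Pool.Agent.Y581.WN

theorem sz_small {ν y : ℕ} (h : y < 2 ^ ν) : sz y ≤ 4 * ν + 1 := by
  have h1 := sz_nat_le y
  have h2 : y.size ≤ ν := Nat.size_le.2 h
  omega

theorem sz_dpair {ν y : ℕ} (h : y < 2 ^ ν) : sz (y, y) ≤ 8 * ν + 3 := by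
  have h1 := sz_small h
  rw [sz_pair]
  omega

theorem sz_dlist {ν : ℕ} (l : List ℕ) (f : ℕ → ℕ) (h : ∀ a ∈ l, f a < 2 ^ ν)
    (hl : l.length ≤ 2 ^ ν) : sz (l.map fun e => (f e, f e)) ≤ 2 ^ ν * (8 * ν + 4) + 1 := by
  have h1 := sz_le_length_mul (l.map fun e => (f e, f e)) (8 * ν + 3) (by
    intro a ha
    obtain ⟨e, he, rfl⟩ := List.mem_map.1 ha
    exact sz_dpair (h e he))
  rw [List.length_map] at h1
  have h2 : l.length * (8 * ν + 3 + 1) ≤ 2 ^ ν * (8 * ν + 4) := Nat.mul_le_mul_right _ hl
  omega

theorem kp_lt (ν e : ℕ) : kp ν e < 2 ^ ν := by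
  have : 0 < 2 ^ ν := by positivity
  unfold kp
  omega

/-- the atoms of the instances with keys -/
def atk (k t : ℕ) : List (ℕ × List ℕ) :=
  (1, [k, k]) :: (2, [k, k]) :: (0, List.range (k + 1)) :: (0, List.range (k + t)) ::
    (List.range t).map fun i => (i + 3, [k + i, k + i])

theorem length_labk (n c ν j i : ℕ) : (labn n c ν j i).length = n + c + ν + 1 := by
  unfold labn
  rw [List.length_append, List.length_replicate, List.length_cons, List.length_append,
    length_bitsOf, length_bitsOf]
  ring

/-- WK: the form, the parameter and the size of the instances with keys -/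
theorem t_wk : S_wk := by
  intro k t
  refine ⟨6 + 14 * (2 + t) + sz (k :: List.replicate t 1) + sz (atk k t) +
    sz ((allB (t + 4)).filter Phi) + 6, ?_⟩
  intro n c ν j rest s κ ht hs hrest
  refine ⟨⟨⟨?_, ?_⟩, ?_⟩, ?_, ?_⟩
  · show (List.range (2 ^ ν)).map (labn n c ν j) ≠ []
    intro h
    have h1 := congrArg List.length h
    rw [List.length_map, List.length_range, List.length_nil] at h1
    have : 0 < 2 ^ ν := by positivity
    omega
  · show (k :: List.replicate rest.length 1).length ≤ t + 1
    rw [List.length_cons, List.length_replicate, ht]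
  · intro s hs
    exact (List.eq_of_mem_replicate hs).le
  · have h1 : ∀ m : ℕ, (((List.range m).map fun i => (i + 3, [k + i, k + i])).map
        fun p : ℕ × List ℕ => p.2.length + 1).sum = 3 * m := by
      intro m
      induction m with
      | zero => rfl
      | succ m ih =>
        rw [List.range_succ, List.map_append, List.map_append, List.sum_append, ih]
        simp
        ring
    show (k :: List.replicate rest.length 1).sum + (((1, [k, k]) :: (2, [k, k]) ::
      (0, List.range (k + 1)) :: (0, List.range (k + rest.length)) ::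
      (List.range rest.length).map fun i => (i + 3, [k + i, k + i])).map
        fun p : ℕ × List ℕ => p.2.length + 1).sum = _
    rw [List.sum_cons, List.sum_replicate, List.map_cons, List.map_cons, List.map_cons,
      List.map_cons, List.sum_cons, List.sum_cons, List.sum_cons, List.sum_cons, h1, ht]
    simp
    ring
  · have e : sz (hardk n k c ν j rest s κ) = sz ((List.range (2 ^ ν)).map (labn n c ν j)) +
        (sz ((List.range s).map (fun e => (kp ν e, kp ν e)) ::
          ((List.range s).filter κ).map (fun e => (kp ν e, kp ν e)) ::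
          rest.map fun r => (List.range (2 ^ r)).map fun y => (y, y)) +
        (sz (k :: List.replicate rest.length 1) +
        (sz (atk k rest.length) + sz ((allB (rest.length + 4)).filter Phi) + 1) + 1) + 1) + 1 := by
      have : sz (hardk n k c ν j rest s κ) = sz ((List.range (2 ^ ν)).map (labn n c ν j),
        ((List.range s).map (fun e => (kp ν e, kp ν e)) ::
          ((List.range s).filter κ).map (fun e => (kp ν e, kp ν e)) ::
          rest.map fun r => (List.range (2 ^ r)).map fun y => (y, y)),
        k :: List.replicate rest.length 1, atk k rest.length,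
        (allB (rest.length + 4)).filter Phi) := rfl
      rw [this, sz_pair, sz_pair, sz_pair, sz_pair]
    have h1 := sz_le_length_mul ((List.range (2 ^ ν)).map (labn n c ν j))
      (4 * (n + c + ν + 1) + 1) (by
        intro a ha
        obtain ⟨i, _, rfl⟩ := List.mem_map.1 ha
        have := sz_listBool_le (labn n c ν j i)
        rw [length_labk] at this
        exact this)
    rw [List.length_map, List.length_range] at h1
    have h2 := sz_le_length_mul ((List.range s).map (fun e => (kp ν e, kp ν e)) ::
          ((List.range s).filter κ).map (fun e => (kp ν e, kp ν e)) ::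
          rest.map fun r => (List.range (2 ^ r)).map fun y => (y, y))
      (2 ^ ν * (8 * ν + 4) + 1) (by
        intro a ha
        rcases List.mem_cons.1 ha with h | ha
        · rw [h]
          exact sz_dlist _ (kp ν) (fun e _ => kp_lt ν e) (by rw [List.length_range]; exact hs)
        · rcases List.mem_cons.1 ha with h | ha
          · rw [h]
            refine sz_dlist _ (kp ν) (fun e _ => kp_lt ν e) ?_
            have h3 := List.length_filter_le κ (List.range s)
            rw [List.length_range] at h3
            exact h3.trans hs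
          · obtain ⟨r, hr, rfl⟩ := List.mem_map.1 ha
            have h4 : 2 ^ r ≤ 2 ^ ν := Nat.pow_le_pow_right (by norm_num) (hrest r hr)
            exact sz_dlist _ (fun y => y) (fun y hy => (List.mem_range.1 hy).trans_le h4)
              (by rw [List.length_range]; exact h4))
    rw [List.length_cons, List.length_cons, List.length_map, ht] at h2
    rw [e, ht]
    have hQ : 1 ≤ 2 ^ ν := Nat.one_le_two_pow
    generalize 2 ^ ν = Q at h1 h2 hQ ⊢
    generalize sz ((List.range Q).map (labn n c ν j)) = a1 at h1 ⊢
    generalize sz ((List.range s).map (fun e => (kp ν e, kp ν e)) ::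
          ((List.range s).filter κ).map (fun e => (kp ν e, kp ν e)) ::
          rest.map fun r => (List.range (2 ^ r)).map fun y => (y, y)) = a2 at h2 ⊢
    generalize sz (k :: List.replicate t 1) = a3
    generalize sz (atk k t) = a4
    generalize sz ((allB (t + 4)).filter Phi) = a5
    have h5 : 1 ≤ n + c + ν + 1 := by omega
    have hQL : Q ≤ Q * (n + c + ν + 1) := Nat.le_mul_of_pos_right _ (by omega)
    have hQν : Q * ν ≤ Q * (n + c + ν + 1) := Nat.mul_le_mul_left _ (by omega)
    have h6 : (6 + 14 * (2 + t) + a3 + a4 + a5 + 6) * Q * (n + c + ν + 1) =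
        (6 + 14 * (2 + t) + a3 + a4 + a5 + 6) * (Q * (n + c + ν + 1)) := by ring
    rw [h6]
    have h7 : Q * (4 * (n + c + ν + 1) + 1 + 1) = 4 * (Q * (n + c + ν + 1)) + 2 * Q := by ring
    have h8 : (t + 1 + 1) * (Q * (8 * ν + 4) + 1 + 1) =
        (2 + t) * (8 * (Q * ν) + 4 * Q + 2) := by ring
    rw [h7] at h1
    rw [h8] at h2
    generalize Q * (n + c + ν + 1) = W at *
    have hW : 1 ≤ W := hQ.trans hQL
    have h9 : (2 + t) * (8 * (Q * ν) + 4 * Q + 2) ≤ (2 + t) * (14 * W) :=
      Nat.mul_le_mul_left _ (by omega)
    have h10 : (6 + 14 * (2 + t) + a3 + a4 + a5 + 6) * W =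
        6 * W + (2 + t) * (14 * W) + (a3 + a4 + a5 + 6) * W := by ring
    have h11 : a3 + a4 + a5 + 6 ≤ (a3 + a4 + a5 + 6) * W := Nat.le_mul_of_pos_right _ (by omega)
    rw [h10]
    omega

end Pool.Agent.Y77.WN
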